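import Pool.Agent.H91.NV.LTargets

/-!
# Means over both coefficients: products over primes
-/

set_option autoImplicit false

open MeasureTheory Set Filter NumberField NumberField.InfinitePlace
open scoped Real

open Pool.Agent.H65.CM4
open Pool.Agent.H61.NVK
open Pool.Agent.H89.NV
open Pool.Agent.H91.NV

namespace Pool.Agent.H72.NVK

variable (k : Type) [Field k] [NumberField k] [IsTotallyReal k]

/-- The version with one variable: products over primes. -/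
theorem mpd_one (hMIA : T_MIA k) (hMPW : T_MPW k) (M q : Ideal (𝓞 k)) (R : Finset (PrI k))
    (g : PrI k → 𝓞 k → ℝ) (hM : M ≠ ⊥) (hq : q ≠ ⊥) (hd : idS R ^ 2 ∣ q)
    (hg : ∀ P ∈ R, Per M (P.1 ^ 2) (g P)) :
    mI M q (fun x => ∏ P ∈ R, g P x) = ∏ P ∈ R, mI M (P.1 ^ 2) (g P) := by
  obtain ⟨J, hJ⟩ := hd
  have hJ0 : J ≠ ⊥ := by
    rintro rfl
    exact hq (by rw [hJ, Ideal.mul_bot])
  have hI0 : idS R ^ 2 ≠ ⊥ := by
    intro h
    exact hq (by rw [hJ, h, Ideal.bot_mul])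
  have hper : Per M (idS R ^ 2) (fun x => ∏ P ∈ R, g P x) := by
    intro x hx y hy
    apply Finset.prod_congr rfl
    intro P hP
    apply hg P hP x hx y
    have h1 : P.1 ^ 2 ∣ idS R ^ 2 := by
      apply pow_dvd_pow_of_dvd
      exact Finset.dvd_prod_of_mem (fun P : PrI k => P.1) hP
    exact Ideal.mul_mono_left (Ideal.le_of_dvd h1) hy
  have h1 := (hMIA M (idS R ^ 2) hM hI0).2.1 (fun x => ∏ P ∈ R, g P x) J hJ0 hper
  have htop : (⊤ : Ideal (𝓞 k)) ≠ ⊥ := top_ne_bot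
  have h2 := hMPW M ⊤ R (fun _ => 1) g hM htop ?_ ?_ hg
  · rw [(hMIA M ⊤ hM htop).1, one_mul, Ideal.top_mul] at h2
    rw [hJ, mul_comm (idS R ^ 2) J, h1, ← h2]
    congr 1
    funext x
    rw [one_mul]
  · intro P _ hdvd
    have h3 := Ideal.le_of_dvd hdvd
    exact P.2.1.ne_top (top_le_iff.mp h3)
  · intro x _ y _
    rfl

/-- (MPD) means over both coefficients: products over primes. -/
theorem pf_MPD (hMIA : T_MIA k) (hMPW : T_MPW k) : T_MPD k := by
  intro f A q R h hf hA hq hd hh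
  have hAf : A * f ^ 2 ≠ ⊥ := mul_ne_zero hA (pow_ne_zero 2 hf)
  unfold mBC
  have h1 : ∀ b ∈ f, mI (A * f ^ 2) q (fun c => ∏ P ∈ R, h P b c) =
      ∏ P ∈ R, mI (A * f ^ 2) (P.1 ^ 2) (fun c => h P b c) := by
    intro b hb
    exact mpd_one k hMIA hMPW (A * f ^ 2) q R (fun P c => h P b c) hAf hq hd
      fun P hP x hx y hy => (hh P hP).perC b hb x hx y hy
  rw [(hMIA f q hf hq).2.2.2.1 _ _ h1]
  apply mpd_one k hMIA hMPW f q R
    (fun P b => mI (A * f ^ 2) (P.1 ^ 2) (fun c => h P b c)) hf hq hd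
  intro P hP b hb y hy
  have hP0 : P.1 ^ 2 ≠ ⊥ := pow_ne_zero 2 P.2.2
  exact (hMIA (A * f ^ 2) (P.1 ^ 2) hAf hP0).2.2.2.1 _ _
    fun c hc => (hh P hP).perB b hb c hc y hy

end Pool.Agent.H72.NVK
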